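import Pool.Agent.Helper67.SG.Norms

namespace Pool.Agent.Results.MP_4cf087_an.Characterization

open Helper67.SG TopologicalSpace

universe u

/-- Let `X` be a separable Banach space. Then `X` is in the class `𝒞` exactly when `X*` contains a
nonempty weak*-compact convex set none of whose weak*-support points is a point of weak*-to-weak
continuity, and exactly when some equivalent norm has no norm-attaining functional of norm one that
is a point of weak*-to-weak continuity of the dual ball (Gateaux smoothness comes for free).
In particular `X` is in the class if some weak*-compact convex set has no point of weak*-to-weak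
continuity at all, for instance if `X` contains `ℓ¹`; a nonzero `X` with separable dual is not in
the class; and a nonzero `X` with an unconditional finite-dimensional decomposition (for instance an
unconditional basis) is in the class exactly when it contains `ℓ¹`. -/
theorem result (X : Type u) [NormedAddCommGroup X] [NormedSpace ℝ X] [CompleteSpace X]
    [SeparableSpace X] :
    (ClassC X ↔ HasNoSupportPCSet X) ∧ (ClassC X ↔ HasBadNorm X) ∧
      (HasNoPCSet X → ClassC X) ∧ (ContainsL1 X → HasNoPCSet X) ∧
      (Nontrivial X → SeparableSpace (X →L[ℝ] ℝ) → ¬ ClassC X) ∧
      (Nontrivial X → HasUncondFDD X → (ClassC X ↔ ContainsL1 X)) :=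
  ⟨classC_iff, classC_iff_badNorm, classC_of_noPC, hasNoPC_of_containsL1,
    fun _ h => not_classC_of_separable_dual h, fun _ h => classC_iff_of_uncond h⟩

end Pool.Agent.Results.MP_4cf087_an.Characterization
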